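import Pool.Agent.R475.SH.Dens

/-!
# A semifilter which is not homeomorphic to any of its proper clopen subsets

There is (in ZFC) a semifilter on `ω` which, as a subspace of the Cantor set, is not strongly
homogeneous; moreover it is not homeomorphic to any proper clopen subset of itself.
-/

set_option autoImplicit false

namespace Pool.Agent.Results.MP_7a28e0_gt.SemifilterNotStronglyHomogeneous

open Set Cardinal Topology MeasureTheory Filter Pool.Agent.H3R3.Rigid Pool.Agent.Y443.BR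
open Pool.Agent.R475.SH
open scoped ENNReal

/-- A semifilter: a nonempty family of infinite sets of natural numbers (a set is identified with
its characteristic function) which is closed under supersets modulo finite sets. -/
def IsSemifilter (S : Set (ℕ → Bool)) : Prop :=
  S.Nonempty ∧ (∀ x ∈ S, {n | x n = true}.Infinite) ∧
    ∀ x ∈ S, ∀ y : ℕ → Bool, ({n | x n = true} \ {n | y n = true}).Finite → y ∈ S

/-- A space is strongly homogeneous if it is homeomorphic to each of its non-empty clopen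
subspaces. -/
def StronglyHomogeneous (Y : Type) [TopologicalSpace Y] : Prop :=
  ∀ U : Set Y, IsClopen U → U.Nonempty → Nonempty (U ≃ₜ Y)

/-- the choice at one stage -/
lemma choose_U {x y : C} (hx : x ∈ NN) (hxy : ¬ E0 x y) {D' : Prop} (hD : y ∈ DD → D') :
    ∃ U : Set C, U ⊆ NN ∧ (∀ z ∈ U, Sim x z) ∧ (∀ z ∈ U, ∀ w ∈ NN, AE z w → w ∈ U) ∧
      (x ∈ U ↔ ¬ (D' ∨ y ∈ U)) := by
  by_cases h1 : D'
  · exact ⟨∅, empty_subset _, fun z hz => hz.elim, fun z hz => hz.elim, by simp [h1]⟩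
  · have hy : y ∉ DD := fun h => h1 (hD h)
    by_cases h2 : AE x y
    · have hyN := NN_up h2 hx hy
      refine ⟨{w | w ∈ NN ∧ AE y w}, fun w hw => hw.1, ?_, ?_, ?_⟩
      · rintro z ⟨hz, hz'⟩
        exact sim_of_AE (h2.trans hz') hx hz
      · rintro z ⟨hz, hz'⟩ w hw hzw
        exact ⟨hw, hz'.trans hzw⟩
      · constructor
        · rintro ⟨-, h⟩
          exact absurd (E0_of_AE h2 h) hxy
        · intro h
          exact absurd (Or.inr ⟨hyN, AE.refl y⟩) h
    · refine ⟨{w | w ∈ NN ∧ AE x w}, fun w hw => hw.1, ?_, ?_, ?_⟩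
      · rintro z ⟨hz, hz'⟩
        exact sim_of_AE hz' hx hz
      · rintro z ⟨hz, hz'⟩ w hw hzw
        exact ⟨hw, hz'.trans hzw⟩
      · constructor
        · rintro - (h | ⟨-, h⟩)
          · exact h1 h
          · exact h2 h
        · intro _
          exact ⟨hx, AE.refl x⟩

/-- the points concerned by a task -/
def PP (F F' : C → C) (V : Set C) : Set C :=
  {x | x ∈ NN ∧ F' (F x) = x ∧ F x ∈ V ∧ ¬ E0 x (F x)}

lemma measurableSet_PP {F F' : C → C} {V : Set C} (hF : Measurable F) (hF' : Measurable F')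
    (hV : MeasurableSet V) : MeasurableSet (PP F F' V) :=
  measurableSet_NN.inter ((measurableSet_eq_fun (hF'.comp hF) measurable_id).inter
    ((hF hV).inter (measurableSet_E0 hF).compl))

theorem exists_semifilter : ∃ S : Set C, DD ⊆ S ∧ S ⊆ DD ∪ NN ∧
    (∀ x ∈ S, ∀ y, AE x y → y ∈ S) ∧
    (∀ K : Set C, MeasurableSet K → mu K ≠ 0 → (K ∩ S).Nonempty) ∧
    (∀ (F F' : C → C) (V : Set C), Measurable F → Measurable F' → MeasurableSet V →
      mu (PP F F' V) ≠ 0 → ∃ x ∈ PP F F' V, (x ∈ S ↔ F x ∉ S)) := by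
  classical
  have hT : #(BS ⊕ (BM × BM × BS)) ≤ 𝔠 := by
    rw [mk_sum, mk_prod, mk_prod]
    simp only [lift_id]
    refine add_le_of_le aleph0_le_continuum mk_borel ?_
    refine mul_le_of_le aleph0_le_continuum mk_borelMap ?_
    exact mul_le_of_le aleph0_le_continuum mk_borelMap mk_borel
  have : Nonempty (BS ⊕ (BM × BM × BS)) := ⟨Sum.inl ⟨Set.univ, MeasurableSet.univ⟩⟩
  obtain ⟨e, he⟩ := exists_enum hT
  let Tk : BS ⊕ (BM × BM × BS) → Prop → (C → Prop) → C × C × Set C → Prop := fun t _ B a =>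
    match t with
    | Sum.inl K => mu K.1 ≠ 0 → a.1 ∈ K.1 ∧ a.1 ∈ a.2.2
    | Sum.inr q => mu (PP q.1.1 q.2.1.1 q.2.2.1) ≠ 0 → a.1 ∈ PP q.1.1 q.2.1.1 q.2.2.1 ∧
        a.2.1 = q.1.1 a.1 ∧ (a.1 ∈ a.2.2 ↔ ¬ ((a.2.1 ∈ DD ∨ B a.2.1) ∨ a.2.1 ∈ a.2.2))
  let Q : ∀ i : Lam, (∀ j, j < i → C × C × Set C) → C × C × Set C → Prop := fun i g a =>
    a.1 ∈ NN ∧ (∀ j (hj : j < i), ¬ Sim (g j hj).1 a.1 ∧ ¬ Sim (g j hj).2.1 a.1) ∧
      a.2.2 ⊆ NN ∧ (∀ z ∈ a.2.2, Sim a.1 z) ∧ (∀ z ∈ a.2.2, ∀ w ∈ NN, AE z w → w ∈ a.2.2) ∧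
      Tk (e i) True (fun y => ∃ j, ∃ hj : j < i, y ∈ (g j hj).2.2) a
  have hQ : ∀ i g, ∃ a, Q i g a := by
    intro i g
    let R : Set C := (range fun j : Iio i => (g j.1 j.2).1) ∪ range fun j : Iio i => (g j.1 j.2).2.1
    have hR : #R < 𝔠 := mk_union_lt (mk_range_le.trans_lt (mk_preimage_lam i))
      (mk_range_le.trans_lt (mk_preimage_lam i))
    have hav : ∀ P : Set C, MeasurableSet P → mu P ≠ 0 → ∃ x ∈ P, x ∈ NN ∧
        ∀ j (hj : j < i), ¬ Sim (g j hj).1 x ∧ ¬ Sim (g j hj).2.1 x := by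
      intro P hP hP0
      obtain ⟨x, hx, hxR⟩ := exists_avoid (hP.inter measurableSet_NN)
        (by rw [mu_inter_NN]; exact hP0) hR
      exact ⟨x, hx.1, hx.2, fun j hj => ⟨hxR _ (Or.inl ⟨⟨j, hj⟩, rfl⟩),
        hxR _ (Or.inr ⟨⟨j, hj⟩, rfl⟩)⟩⟩
    have hun : mu (Set.univ : Set C) ≠ 0 := by rw [measure_univ]; exact one_ne_zero
    cases hei : e i with
    | inl K =>
      obtain ⟨x, hxP, hxN, hxR⟩ : ∃ x, (mu K.1 ≠ 0 → x ∈ K.1) ∧ x ∈ NN ∧
          ∀ j (hj : j < i), ¬ Sim (g j hj).1 x ∧ ¬ Sim (g j hj).2.1 x := by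
        by_cases h : mu K.1 ≠ 0
        · obtain ⟨x, h1, h2⟩ := hav K.1 K.2 h
          exact ⟨x, fun _ => h1, h2⟩
        · obtain ⟨x, h1, h2⟩ := hav Set.univ MeasurableSet.univ hun
          exact ⟨x, fun h' => absurd h' h, h2⟩
      refine ⟨(x, x, {w | w ∈ NN ∧ AE x w}), hxN, hxR, fun w hw => hw.1, ?_, ?_, ?_⟩
      · rintro z ⟨hz, hz'⟩
        exact sim_of_AE hz' hxN hz
      · rintro z ⟨hz, hz'⟩ w hw hzw
        exact ⟨hw, hz'.trans hzw⟩
      · simp only [hei, Tk]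
        intro h
        exact ⟨hxP h, hxN, AE.refl x⟩
    | inr q =>
      by_cases h : mu (PP q.1.1 q.2.1.1 q.2.2.1) ≠ 0
      · obtain ⟨x, hxP, hxN, hxR⟩ := hav _ (measurableSet_PP q.1.2 q.2.1.2 q.2.2.2) h
        obtain ⟨U, hU1, hU2, hU3, hU4⟩ := choose_U (x := x) (y := q.1.1 x) hxN hxP.2.2.2
          (D' := q.1.1 x ∈ DD ∨ ∃ j, ∃ hj : j < i, q.1.1 x ∈ (g j hj).2.2) Or.inl
        refine ⟨(x, q.1.1 x, U), hxN, hxR, hU1, hU2, hU3, ?_⟩
        simp only [hei, Tk]
        intro _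
        exact ⟨hxP, trivial, hU4⟩
      · obtain ⟨x, -, hxN, hxR⟩ := hav Set.univ MeasurableSet.univ hun
        refine ⟨(x, x, ∅), hxN, hxR, empty_subset _, fun z hz => hz.elim,
          fun z hz => hz.elim, ?_⟩
        simp only [hei, Tk]
        exact fun h' => absurd h' h
  obtain ⟨f, hf⟩ := exists_rec (r := fun a b : Lam => a < b) wellFounded_lt Q hQ
  have hne : ∀ i j, Sim (f i).1 (f j).1 → i = j := by
    intro i j h
    rcases lt_trichotomy i j with h1 | h1 | h1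
    · exact absurd h ((hf j).2.1 i h1).1
    · exact h1
    · exact absurd h.symm ((hf i).2.1 j h1).1
  refine ⟨DD ∪ ⋃ i, (f i).2.2, subset_union_left, ?_, ?_, ?_, ?_⟩
  · rintro x (hx | hx)
    · exact Or.inl hx
    · obtain ⟨i, hi⟩ := mem_iUnion.1 hx
      exact Or.inr ((hf i).2.2.1 hi)
  · rintro x (hx | hx) y hxy
    · exact Or.inl (DD_up hxy hx)
    · obtain ⟨i, hi⟩ := mem_iUnion.1 hx
      by_cases hy : y ∈ DD
      · exact Or.inl hy
      · exact Or.inr (mem_iUnion.2 ⟨i, (hf i).2.2.2.2.1 x hi y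
          (NN_up hxy ((hf i).2.2.1 hi) hy) hxy⟩)
  · intro K hK hK0
    obtain ⟨i, hi⟩ := he (Sum.inl ⟨K, hK⟩)
    have h1 := (hf i).2.2.2.2.2
    rw [hi] at h1
    have h2 := h1 hK0
    exact ⟨(f i).1, h2.1, Or.inr (mem_iUnion.2 ⟨i, h2.2⟩)⟩
  · intro F F' V hF hF' hV hP
    obtain ⟨i, hi⟩ := he (Sum.inr (⟨F, hF⟩, ⟨F', hF'⟩, ⟨V, hV⟩))
    have h1 := (hf i).2.2.2.2.2
    rw [hi] at h1
    obtain ⟨h2, h3, h4⟩ := h1 hP
    refine ⟨(f i).1, h2, ?_⟩
    have h3' : (f i).2.1 = F (f i).1 := h3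
    rw [← h3']
    have h5 : (f i).1 ∈ DD ∪ ⋃ i, (f i).2.2 ↔ (f i).1 ∈ (f i).2.2 := by
      constructor
      · rintro (h | h)
        · exact absurd h (NN_not_DD (hf i).1)
        · obtain ⟨j, hj⟩ := mem_iUnion.1 h
          have h6 : j = i := hne _ _ ((hf j).2.2.2.1 _ hj)
          rw [h6] at hj
          exact hj
      · intro h
        exact Or.inr (mem_iUnion.2 ⟨i, h⟩)
    have h6 : (f i).2.1 ∈ DD ∪ ⋃ i, (f i).2.2 ↔
        (((f i).2.1 ∈ DD ∨ ∃ j, ∃ _ : j < i, (f i).2.1 ∈ (f j).2.2) ∨ (f i).2.1 ∈ (f i).2.2) := by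
      constructor
      · rintro (h | h)
        · exact Or.inl (Or.inl h)
        · obtain ⟨j, hj⟩ := mem_iUnion.1 h
          rcases lt_trichotomy j i with h7 | h7 | h7
          · exact Or.inl (Or.inr ⟨j, h7, hj⟩)
          · subst h7
            exact Or.inr hj
          · exact absurd ((hf j).2.2.2.1 _ hj).symm ((hf j).2.1 i h7).2
      · rintro ((h | ⟨j, -, h⟩) | h)
        · exact Or.inl h
        · exact Or.inr (mem_iUnion.2 ⟨j, h⟩)
        · exact Or.inr (mem_iUnion.2 ⟨i, h⟩)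
    rw [h5, h6]
    exact h4

lemma ae_iff {x y : C} : ({n | x n = true} \ {n | y n = true}).Finite ↔ AE x y := by
  have h : ({n | x n = true} \ {n | y n = true}) = {n | x n = true ∧ y n = false} := by
    ext n
    simp
  rw [h]; rfl

/-- No Borel piece of measure less than one is homeomorphic to the whole space. -/
lemma no_homeo {S V : Set C} (hV : MeasurableSet V) (hV1 : mu V < 1)
    (hS : ∀ K : Set C, MeasurableSet K → mu K ≠ 0 → (K ∩ S).Nonempty)
    (hT : ∀ (F F' : C → C) (V : Set C), Measurable F → Measurable F' → MeasurableSet V →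
      mu (PP F F' V) ≠ 0 → ∃ x ∈ PP F F' V, (x ∈ S ↔ F x ∉ S))
    (h : (Subtype.val ⁻¹' V : Set S) ≃ₜ S) : False := by
  obtain ⟨F, hF, hFh⟩ := exists_extension (X := S) (fun z => ((h.symm z).1.1 : C))
    (measurable_subtype_coe.comp (measurable_subtype_coe.comp h.symm.continuous.measurable))
  have hg : Continuous (fun z : (S ∩ V : Set C) => (h ⟨⟨z.1, z.2.1⟩, z.2.2⟩ : C)) :=
    continuous_subtype_val.comp (h.continuous.comp (by fun_prop))
  obtain ⟨F', hF', hFh'⟩ := exists_extension (X := S ∩ V) _ hg.measurable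
  have hFF : ∀ z ∈ S, F z ∈ S ∩ V ∧ F' (F z) = z := by
    intro z hz
    have h1 := hFh ⟨z, hz⟩
    simp only at h1
    have h2 : F z ∈ S ∩ V := by
      rw [h1]
      exact ⟨(h.symm ⟨z, hz⟩).1.2, (h.symm ⟨z, hz⟩).2⟩
    refine ⟨h2, ?_⟩
    have h3 := hFh' ⟨F z, h2⟩
    simp only at h3
    rw [h3]
    have h4 : (⟨⟨F z, h2.1⟩, h2.2⟩ : (Subtype.val ⁻¹' V : Set S)) = h.symm ⟨z, hz⟩ :=
      Subtype.ext (Subtype.ext h1)
    rw [h4, Homeomorph.apply_symm_apply]
  -- surjectivity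
  have hsur : ∀ y ∈ S ∩ V, ∃ z ∈ S, F z = y := by
    intro y hy
    refine ⟨(h ⟨⟨y, hy.1⟩, hy.2⟩).1, (h ⟨⟨y, hy.1⟩, hy.2⟩).2, ?_⟩
    have h1 := hFh (h ⟨⟨y, hy.1⟩, hy.2⟩)
    rw [h1, Homeomorph.symm_apply_apply]
  have hPP : mu (PP F F' V) ≠ 0 := by
    intro h0
    let B : Set C := {x | F' (F x) = x} ∩ F ⁻¹' V
    have hB : MeasurableSet B := (measurableSet_eq_fun (hF'.comp hF) measurable_id).inter (hF hV)
    have hBc : mu Bᶜ = 0 := by
      by_contra hc
      obtain ⟨x, hx, hxS⟩ := hS _ hB.compl hc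
      exact hx ⟨(hFF x hxS).2, (hFF x hxS).1.2⟩
    have hNc : mu NNᶜ = 0 := ae_NN
    let W : Set C := B ∩ {x | E0 x (F x)}
    have hWc : mu Wᶜ = 0 := by
      have h1 : Wᶜ ⊆ (Bᶜ ∪ NNᶜ) ∪ PP F F' V := by
        intro x hx
        by_cases h2 : x ∈ B
        · by_cases h3 : x ∈ NN
          · refine Or.inr ⟨h3, h2.1, h2.2, fun h4 => hx ⟨h2, h4⟩⟩
          · exact Or.inl (Or.inr h3)
        · exact Or.inl (Or.inl h2)
      exact measure_mono_null h1 (measure_union_null (measure_union_null hBc hNc) h0)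
    have hW1 : mu W = 1 := by
      have h1 := prob_add_prob_compl (μ := mu) (hB.inter (measurableSet_E0 hF))
      have h2 : mu (B ∩ {x | E0 x (F x)})ᶜ = 0 := hWc
      rw [h2, add_zero] at h1
      exact h1
    have h2 := mu_image_eq hF hF' (W := W) (fun x hx => ⟨hx.1.1, hx.2⟩)
    have h3 : mu (F '' W) ≤ mu V := by
      refine measure_mono ?_
      rintro _ ⟨x, hx, rfl⟩
      exact hx.1.2
    rw [h2, hW1] at h3
    exact absurd hV1 (not_lt.2 h3)
  obtain ⟨x, hx, hxS⟩ := hT F F' V hF hF' hV hPP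
  by_cases h1 : x ∈ S
  · exact (hxS.1 h1) (hFF x h1).1.1
  · have h2 : F x ∈ S := by
      by_contra hc
      exact h1 (hxS.2 hc)
    obtain ⟨z, hz, hzx⟩ := hsur (F x) ⟨h2, hx.2.2.1⟩
    have h3 : z = x := by
      rw [← (hFF z hz).2, hzx, hx.2.1]
    exact h1 (h3 ▸ hz)

lemma mu_open_ne {V : Set C} (hV : IsOpen V) (hn : V.Nonempty) : mu V ≠ 0 := by
  obtain ⟨x, hx⟩ := hn
  obtain ⟨k, hk⟩ := exists_agr_of_isOpen hV hx
  have h1 : mu {y : C | Agr k x y} ≤ mu V := measure_mono hk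
  rw [mu_cyl] at h1
  exact (lt_of_lt_of_le (half_pow_pos k) h1).ne'

/-- **Main theorem.**  There is a semifilter `S`, a subset of the Cantor set, which is not
homeomorphic to any of its proper clopen subsets; in particular `S` is not strongly homogeneous. -/
theorem result :
    ∃ S : Set (ℕ → Bool), IsSemifilter S ∧ ¬ StronglyHomogeneous S ∧
      ∀ U : Set S, IsClopen U → U ≠ Set.univ → IsEmpty (U ≃ₜ S) := by
  obtain ⟨S, hDS, hSD, hup, hS, hT⟩ := exists_semifilter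
  have htop : (fun _ => true : C) ∈ S := by
    refine hDS ⟨1 / 4, by norm_num, Frequently.of_forall fun k => ?_⟩
    have h1 : d k (fun _ => true : C) = 1 := by
      unfold d
      rw [Finset.filter_true_of_mem (fun _ _ => rfl), card_blk]
      simp
    rw [h1]
    norm_num
  have key : ∀ U : Set S, IsClopen U → U ≠ Set.univ → IsEmpty (U ≃ₜ S) := by
    intro U hU hUn
    refine ⟨fun h => ?_⟩
    obtain ⟨V, hV, hVU⟩ := isOpen_induced_iff.1 hU.isOpen
    obtain ⟨V', hV', hVU'⟩ := isOpen_induced_iff.1 hU.compl.isOpen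
    have hdis : V ∩ V' = ∅ := by
      by_contra hc
      have h1 := mu_open_ne (hV.inter hV') (nonempty_iff_ne_empty.2 hc)
      obtain ⟨x, ⟨hx, hx'⟩, hxS⟩ := hS _ (hV.inter hV').measurableSet h1
      have h2 : (⟨x, hxS⟩ : S) ∈ U := by rw [← hVU]; exact hx
      have h3 : (⟨x, hxS⟩ : S) ∈ Uᶜ := by rw [← hVU']; exact hx'
      exact h3 h2
    have hVn : V'.Nonempty := by
      obtain ⟨p, hp⟩ := (ne_univ_iff_exists_notMem U).1 hUn
      have h1 : p ∈ Uᶜ := hp
      rw [← hVU'] at h1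
      exact ⟨p.1, h1⟩
    have hm : mu V < 1 := by
      have h1 : mu V + mu V' ≤ 1 := by
        rw [← measure_union (disjoint_iff_inter_eq_empty.2 hdis) hV'.measurableSet]
        exact prob_le_one
      have h2 := mu_open_ne hV' hVn
      have h3 : mu V < mu V + mu V' := ENNReal.lt_add_right (measure_ne_top _ _) h2
      exact h3.trans_le h1
    subst hVU
    exact no_homeo hV.measurableSet hm hS hT h
  refine ⟨S, ⟨⟨_, htop⟩, ?_, ?_⟩, ?_, key⟩
  · intro x hx hfin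
    have h1 := d_fin hfin
    rcases hSD hx with h2 | h2
    · obtain ⟨ε, hε, hf⟩ := h2
      obtain ⟨k, h3, h4⟩ := (hf.and_eventually h1).exists
      rw [h4] at h3
      linarith
    · have h3 : Tendsto (fun k => d k x) atTop (𝓝 (1 / 2)) := h2
      obtain ⟨k, h4, h5⟩ := (((tendsto_order.1 h3).1 0 (by norm_num)).and h1).exists
      rw [h5] at h4
      exact lt_irrefl _ h4
  · intro x hx y hxy
    exact hup x hx y (ae_iff.1 hxy)
  · intro hst
    let U : Set S := {x | x.1 0 = true}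
    have hc : IsClopen {x : C | x 0 = true} :=
      (isClopen_discrete {true}).preimage (continuous_apply (0 : ℕ))
    have hU : IsClopen U := hc.preimage continuous_subtype_val
    have hUn : U ≠ Set.univ := by
      have h1 : (fun n => decide (n ≠ 0) : C) ∈ S := by
        refine hup _ htop _ ?_
        refine (finite_singleton 0).subset ?_
        rintro n ⟨-, hn⟩
        simpa using hn
      intro h2
      have h3 : (⟨_, h1⟩ : S) ∈ U := by rw [h2]; exact mem_univ _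
      have h4 : decide ((0 : ℕ) ≠ 0) = true := h3
      simp at h4
    obtain ⟨h⟩ := hst U hU ⟨⟨_, htop⟩, rfl⟩
    exact (key U hU hUn).false h

end Pool.Agent.Results.MP_7a28e0_gt.SemifilterNotStronglyHomogeneous
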